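import Mathlib
import Pool.Agent.H6.Thr2

set_option autoImplicit false

namespace Pool.Agent.Results.MP_86beeb_co.Distinct

/-- `G` belongs to the class `C_t` of `(-1,1,t)`-threshold graphs. -/
def InC {V : Type} (t : ℝ) (G : SimpleGraph V) : Prop :=
  ∃ r : V → ℝ, ∀ v w, v ≠ w → (G.Adj v w ↔ r v + r w ∈ Set.Ico (-1 : ℝ) 1 ∪ Set.Ici t)

theorem result (t t' : ℝ) (h : 1 < t) (h' : 1 < t') (hne : t ≠ t') :
    ∃ (n : ℕ) (G : SimpleGraph (Fin n)), ¬ (InC t G ↔ InC t' G) := by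
  rcases lt_or_gt_of_ne hne with c | c
  · obtain ⟨n, G, hG⟩ := Pool.Agent.H6.Thr2.main t t' h c
    exact ⟨n, G, hG⟩
  · obtain ⟨n, G, hG⟩ := Pool.Agent.H6.Thr2.main t' t h' c
    exact ⟨n, G, fun e => hG e.symm⟩

end Pool.Agent.Results.MP_86beeb_co.Distinct
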